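import Pool.Agent.MP_6bef34_co.H88.Api

/-! The interface between the game tree and the contour walk. -/

namespace Pool.Agent.MP_6bef34_co.H88

open Finset
open Pool.Agent.MP_6bef34_co.H7 (Site d)

/-- `Lo k Q`: the king on `k`, to move against the rooks `Q`, is lost inside the box of radius
`N`; every safe step has a reply that keeps him lost -/
structure Gm (Lo : Pt → Finset Pt → Prop) (N : ℤ) : Prop where
  move : ∀ (p : Nd) (k' : Pt), Lo p.k p.Q → Near p.k k' → ¬ Att p.Q k' →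
    ∃ c nw, Kid p c nw ∧ c.k = k' ∧ Lo c.k c.Q
  box : ∀ k Q, Lo k Q → |k 0| ≤ N ∧ |k 1| ≤ N

/-- a lost node whose tokens are all recorded -/
def Nd.Ok (Lo : Pt → Finset Pt → Prop) (p : Nd) : Prop := Lo p.k p.Q ∧ p.Sound

/-- `c` is a later node -/
def Nd.Ext (Lo : Pt → Finset Pt → Prop) (p c : Nd) : Prop := c.Ok Lo ∧ p.T ≤ c.T

/-- number of tokens made between `p` and `c` -/
def Nd.cost (p c : Nd) : ℤ := (c.T.card : ℤ) - p.T.card

/-- the king stands above the site -/
def Nd.On (p : Nd) (b : Site) : Prop := p.k = sp b p.lv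

/-- the king touches the three squares of the window above the site -/
def Nd.Adj (p : Nd) (y : Site) : Prop := ∀ e, Of e → Near p.k (sp y (p.lv + e))

/-- one of the two outer squares of the window above the site is free -/
def Nd.Side (p : Nd) (y : Site) : Prop := ∃ s, Sg s ∧ ¬ Att p.Q (sp y (p.lv + s))

/-- a landing with four open positions and at least one spare token; `g` is the ledger -/
def Nd.F4 (h : Nd) (y : Site) (g : ℤ) : Prop :=
  -2 ≤ g ∧ (3 ≤ g + h.cnt y ∨ (2 ≤ g + h.cnt y ∧ h.nB y ≤ 2) ∨ (1 ≤ g + h.cnt y ∧ h.H1 y))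

/-- the level choice for the first two corners of the dart `(y, i)` -/
def Nd.LC (h : Nd) (y : Site) (i : ZMod 6) (tip : Prop) : Prop :=
  (¬ tip → ¬ h.NC3 (y + d (i + 2))) ∧
  (tip → (¬ h.NC3 (y + d (i + 1)) ∧ (¬ h.Blk (y + d (i + 1)) ∨ ¬ h.NC3 (y + d (i + 2)))) ∨
    (¬ h.Blk (y + d (i + 2)) ∧ 3 ≤ h.cnt (y + d (i + 2))))

/-- a good landing with four open positions -/
def Nd.G4 (h : Nd) (y : Site) (i : ZMod 6) (tip : Prop) (g : ℤ) : Prop :=
  h.F4 y g ∨ (0 ≤ g ∧ h.cnt y = 0 ∧ h.LC y i tip)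

/-- a good landing with three open positions, the first one `u`; `k` tokens of `y` are spent -/
def Nd.G3 (h : Nd) (y u : Site) (k : ℕ) (g : ℤ) : Prop :=
  2 ≤ g + h.cnt y - k ∨ (1 ≤ g + h.cnt y - k ∧ h.nB y ≤ 2) ∨ (0 ≤ g ∧ h.cnt y ≤ k ∧ ¬ h.NC3 u)

/-- what is missing when a blocked tip is paid with its own tokens -/
def Nd.pay (h : Nd) (x : Site) : ℤ := if 4 ≤ h.cnt x then 0 else 1

end Pool.Agent.MP_6bef34_co.H88
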