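import Pool.Agent.MP_6bef34_co.H88.Base

/-! Basic facts on lines, tokens and replies. -/

namespace Pool.Agent.MP_6bef34_co.H88

open Finset
open Pool.Agent.MP_6bef34_co.H7 (Site d)

theorem z6 (i : ZMod 6) : i = 0 ∨ i = 1 ∨ i = 2 ∨ i = 3 ∨ i = 4 ∨ i = 5 := by
  revert i
  decide

theorem f3 (d : Fin 3) : d = 0 ∨ d = 1 ∨ d = 2 := by
  revert d
  decide

theorem f4 (d : Fin 4) : d = 0 ∨ d = 1 ∨ d = 2 ∨ d = 3 := by
  revert d
  decide

theorem pt_ext {r x : Pt} : r = x ↔ r 0 = x 0 ∧ r 1 = x 1 ∧ r 2 = x 2 ∧ r 3 = x 3 := by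
  refine ⟨fun h => by simp [h], fun h => funext fun i => ?_⟩
  rcases f4 i with rfl | rfl | rfl | rfl <;> simp [h]

theorem ham1_iff {r x : Pt} : Ham1 r x ↔
    (r 0 ≠ x 0 ∧ r 1 = x 1 ∧ r 2 = x 2 ∧ r 3 = x 3) ∨
    (r 0 = x 0 ∧ r 1 ≠ x 1 ∧ r 2 = x 2 ∧ r 3 = x 3) ∨
    (r 0 = x 0 ∧ r 1 = x 1 ∧ r 2 ≠ x 2 ∧ r 3 = x 3) ∨
    (r 0 = x 0 ∧ r 1 = x 1 ∧ r 2 = x 2 ∧ r 3 ≠ x 3) := by
  constructor
  · rintro ⟨i, h1, h2⟩
    rcases f4 i with rfl | rfl | rfl | rfl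
    · exact Or.inl ⟨h1, h2 1 (by decide), h2 2 (by decide), h2 3 (by decide)⟩
    · exact Or.inr (Or.inl ⟨h2 0 (by decide), h1, h2 2 (by decide), h2 3 (by decide)⟩)
    · exact Or.inr (Or.inr (Or.inl ⟨h2 0 (by decide), h2 1 (by decide), h1, h2 3 (by decide)⟩))
    · exact Or.inr (Or.inr (Or.inr ⟨h2 0 (by decide), h2 1 (by decide), h2 2 (by decide), h1⟩))
  · rintro (h | h | h | h)
    · exact ⟨0, h.1, fun j hj => by rcases f4 j with rfl | rfl | rfl | rfl <;> simp_all⟩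
    · exact ⟨1, h.2.1, fun j hj => by rcases f4 j with rfl | rfl | rfl | rfl <;> simp_all⟩
    · exact ⟨2, h.2.2.1, fun j hj => by rcases f4 j with rfl | rfl | rfl | rfl <;> simp_all⟩
    · exact ⟨3, h.2.2.2, fun j hj => by rcases f4 j with rfl | rfl | rfl | rfl <;> simp_all⟩

@[simp] theorem sp0 (s : Site) (w : ℤ) : sp s w 0 = s.1 := rfl
@[simp] theorem sp1 (s : Site) (w : ℤ) : sp s w 1 = s.2 := rfl
@[simp] theorem sp2 (s : Site) (w : ℤ) : sp s w 2 = -s.1 - s.2 := rfl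
@[simp] theorem sp3 (s : Site) (w : ℤ) : sp s w 3 = w := rfl
@[simp] theorem tp0 (b : Site) (i : ZMod 6) (w : ℤ) : tp b i w 0 = b.1 + (tau i).1 := rfl
@[simp] theorem tp1 (b : Site) (i : ZMod 6) (w : ℤ) : tp b i w 1 = b.2 + (tau i).2.1 := rfl
@[simp] theorem tp2 (b : Site) (i : ZMod 6) (w : ℤ) :
    tp b i w 2 = -b.1 - b.2 + (tau i).2.2 := rfl
@[simp] theorem tp3 (b : Site) (i : ZMod 6) (w : ℤ) : tp b i w 3 = w := rfl
@[simp] theorem tk0 (r : Pt) : tk r 0 = (-r 1 - r 2, r 1) := rfl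
@[simp] theorem tk1 (r : Pt) : tk r 1 = (r 0, -r 0 - r 2) := rfl
@[simp] theorem tk2 (r : Pt) : tk r 2 = (r 0, r 1) := rfl

/-- the directions and triangle offsets that belong to a dart, in coordinates -/
theorem geo6 (i : ZMod 6) :
    (d i = (-1, 0) ∧ d (i + 1) = (-1, 1) ∧ d (i + 2) = (0, 1) ∧ tau i = (-1, 0, 0) ∧
      tau (i + 1) = (0, 1, 0)) ∨
    (d i = (-1, 1) ∧ d (i + 1) = (0, 1) ∧ d (i + 2) = (1, 0) ∧ tau i = (0, 1, 0) ∧
      tau (i + 1) = (0, 0, -1)) ∨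
    (d i = (0, 1) ∧ d (i + 1) = (1, 0) ∧ d (i + 2) = (1, -1) ∧ tau i = (0, 0, -1) ∧
      tau (i + 1) = (1, 0, 0)) ∨
    (d i = (1, 0) ∧ d (i + 1) = (1, -1) ∧ d (i + 2) = (0, -1) ∧ tau i = (1, 0, 0) ∧
      tau (i + 1) = (0, -1, 0)) ∨
    (d i = (1, -1) ∧ d (i + 1) = (0, -1) ∧ d (i + 2) = (-1, 0) ∧ tau i = (0, -1, 0) ∧
      tau (i + 1) = (0, 0, 1)) ∨
    (d i = (0, -1) ∧ d (i + 1) = (-1, 0) ∧ d (i + 2) = (-1, 1) ∧ tau i = (0, 0, 1) ∧
      tau (i + 1) = (-1, 0, 0)) := by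
  rcases z6 i with rfl | rfl | rfl | rfl | rfl | rfl
  · exact Or.inl ⟨rfl, rfl, rfl, rfl, rfl⟩
  · exact Or.inr (Or.inl ⟨rfl, rfl, rfl, rfl, rfl⟩)
  · exact Or.inr (Or.inr (Or.inl ⟨rfl, rfl, rfl, rfl, rfl⟩))
  · exact Or.inr (Or.inr (Or.inr (Or.inl ⟨rfl, rfl, rfl, rfl, rfl⟩)))
  · exact Or.inr (Or.inr (Or.inr (Or.inr (Or.inl ⟨rfl, rfl, rfl, rfl, rfl⟩))))
  · exact Or.inr (Or.inr (Or.inr (Or.inr (Or.inr ⟨rfl, rfl, rfl, rfl, rfl⟩))))

theorem mem_tk3 {r : Pt} {s : Site} : s ∈ tk3 r ↔ ∃ d, tk r d = s := by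
  simp only [tk3, Multiset.insert_eq_cons, Multiset.mem_cons, Multiset.mem_singleton]
  constructor
  · rintro (h | h | h) <;> exact ⟨_, h.symm⟩
  · rintro ⟨d, h⟩
    rcases f3 d with rfl | rfl | rfl <;> simp [← h]

/-- a rook on level `w` has its line of direction `d` through the site -/
def LineD (Q : Finset Pt) (s : Site) (d : Fin 3) (w : ℤ) : Prop := ∃ r ∈ Q, r 3 = w ∧ tk r d = s

theorem line_iff {Q : Finset Pt} {s : Site} {w : ℤ} : Line Q s w ↔ ∃ d, LineD Q s d w := by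
  simp only [Line, LineD, mem_tk3]
  constructor
  · rintro ⟨r, h1, h2, d, h3⟩
    exact ⟨d, r, h1, h2, h3⟩
  · rintro ⟨d, r, h1, h2, h3⟩
    exact ⟨r, h1, h2, d, h3⟩

theorem count_tk3 (r : Pt) (s : Site) :
    (tk3 r).count s = ∑ d : Fin 3, if tk r d = s then 1 else 0 := by
  simp only [tk3, Multiset.insert_eq_cons, Multiset.count_cons, Multiset.count_singleton,
    Fin.sum_univ_three, @eq_comm _ s]
  omega

/-- master counting lemma: different pairs (direction, level) are different tokens -/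
theorem card_le_count {Q : Finset Pt} {s : Site} (A : Finset (Fin 3 × ℤ))
    (h : ∀ a ∈ A, LineD Q s a.1 a.2) : A.card ≤ (toks Q).count s := by
  classical
  have h1 : (toks Q).count s = ((Q ×ˢ (univ : Finset (Fin 3))).filter
      fun a => tk a.1 a.2 = s).card := by
    rw [toks, Multiset.count_sum', card_filter, sum_product]
    exact sum_congr rfl fun r _ => count_tk3 r s
  rw [h1]
  refine card_le_card_of_surjOn (fun a => (a.2, a.1 3)) fun a ha => ?_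
  obtain ⟨r, a1, a2, a3⟩ := h a ha
  exact ⟨(r, a.1), by simp [a1, a3], by simp [a2]⟩

theorem cnt1 {Q : Finset Pt} {s : Site} {d : Fin 3} {w : ℤ} (h : LineD Q s d w) :
    1 ≤ (toks Q).count s := by
  simpa using card_le_count {(d, w)} (by simpa using h)

theorem cnt2 {Q : Finset Pt} {s : Site} {d1 d2 : Fin 3} {w1 w2 : ℤ} (h1 : LineD Q s d1 w1)
    (h2 : LineD Q s d2 w2) (n : d1 ≠ d2 ∨ w1 ≠ w2) : 2 ≤ (toks Q).count s := by
  have := card_le_count (Q := Q) (s := s) {(d1, w1), (d2, w2)} (by simp [h1, h2])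
  rwa [card_pair (by simp; tauto)] at this

theorem cnt3 {Q : Finset Pt} {s : Site} {d1 d2 d3 : Fin 3} {w1 w2 w3 : ℤ} (h1 : LineD Q s d1 w1)
    (h2 : LineD Q s d2 w2) (h3 : LineD Q s d3 w3) (n12 : d1 ≠ d2 ∨ w1 ≠ w2)
    (n13 : d1 ≠ d3 ∨ w1 ≠ w3) (n23 : d2 ≠ d3 ∨ w2 ≠ w3) : 3 ≤ (toks Q).count s := by
  have := card_le_count (Q := Q) (s := s) {(d1, w1), (d2, w2), (d3, w3)} (by simp [h1, h2, h3])
  rwa [card_insert_of_notMem (by simp; tauto), card_pair (by simp; tauto)] at this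

theorem cnt4 {Q : Finset Pt} {s : Site} {d1 d2 d3 d4 : Fin 3} {w1 w2 w3 w4 : ℤ}
    (h1 : LineD Q s d1 w1) (h2 : LineD Q s d2 w2) (h3 : LineD Q s d3 w3) (h4 : LineD Q s d4 w4)
    (n12 : d1 ≠ d2 ∨ w1 ≠ w2) (n13 : d1 ≠ d3 ∨ w1 ≠ w3) (n14 : d1 ≠ d4 ∨ w1 ≠ w4)
    (n23 : d2 ≠ d3 ∨ w2 ≠ w3) (n24 : d2 ≠ d4 ∨ w2 ≠ w4) (n34 : d3 ≠ d4 ∨ w3 ≠ w4) :
    4 ≤ (toks Q).count s := by
  have := card_le_count (Q := Q) (s := s) {(d1, w1), (d2, w2), (d3, w3), (d4, w4)}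
    (by simp [h1, h2, h3, h4])
  rwa [card_insert_of_notMem (by simp; tauto), card_insert_of_notMem (by simp; tauto),
    card_pair (by simp; tauto)] at this

theorem tk_sp (s : Site) (w : ℤ) (d : Fin 3) : tk (sp s w) d = s := by
  rcases f3 d with rfl | rfl | rfl <;> ext <;> simp <;> omega

/-- a rook above a site shows all three directions -/
theorem lineD_of_col {Q : Finset Pt} {s : Site} {w : ℤ} (h : sp s w ∈ Q) (d : Fin 3) :
    LineD Q s d w := ⟨_, h, rfl, tk_sp s w d⟩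

/-- who attacks the square above a site -/
theorem ham1_sp {r : Pt} {s : Site} {w : ℤ} (h : Ham1 r (sp s w)) :
    (r 3 = w ∧ r ≠ sp s w ∧ ∃ d, tk r d = s) ∨ (r 3 ≠ w ∧ r = sp s (r 3)) := by
  rw [ham1_iff] at h
  simp only [sp0, sp1, sp2, sp3] at h
  rcases h with h | h | h | h
  · exact Or.inl ⟨h.2.2.2, fun e => h.1 (by simp [e]), 0, by ext <;> simp <;> omega⟩
  · exact Or.inl ⟨h.2.2.2, fun e => h.2.1 (by simp [e]), 1, by ext <;> simp <;> omega⟩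
  · exact Or.inl ⟨h.2.2.2, fun e => h.2.2.1 (by simp [e]), 2, by ext <;> simp <;> omega⟩
  · exact Or.inr ⟨h.2.2.2, pt_ext.2 ⟨h.1, h.2.1, h.2.2.1, rfl⟩⟩

theorem att_sp {Q : Finset Pt} {s : Site} {w : ℤ} (h : Att Q (sp s w)) :
    (∃ d, LineD Q s d w) ∨ ∃ w', w' ≠ w ∧ sp s w' ∈ Q := by
  obtain ⟨r, hr, h⟩ := h
  rcases ham1_sp h with ⟨a1, -, d, a3⟩ | ⟨a1, a2⟩
  · exact Or.inl ⟨d, r, hr, a1, a3⟩
  · exact Or.inr ⟨_, a1, a2 ▸ hr⟩

theorem Nd.Sound.le {p : Nd} (h : p.Sound) (s : Site) : (toks p.Q).count s ≤ p.cnt s :=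
  Multiset.count_le_of_le s h

theorem card_newt (r : Pt) (i : Fin 4) : (newt r i).card ≤ 2 := by
  unfold newt
  split_ifs <;> simp

theorem Kid.card {p c : Nd} {nw : Multiset Site} (h : Kid p c nw) : nw.card ≤ 2 := by
  obtain ⟨r, r', i, -, -, -, -, -, -, -, rfl, -⟩ := h
  exact card_newt _ _

theorem Kid.cnt {p c : Nd} {nw : Multiset Site} (h : Kid p c nw) (s : Site) :
    c.cnt s = nw.count s + p.cnt s := by
  obtain ⟨r, r', i, -, -, -, -, -, -, -, -, h⟩ := h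
  simp [Nd.cnt, h]

/-- the reply in usable form: every rook of the child is old or the moved one `r'`; a level move
(`nw = 0`) keeps the three lines of `r`, any other move keeps the level and one line `d` of `r`
and makes the tokens of the two other lines -/
theorem Kid.form {p c : Nd} {nw : Multiset Site} (h : Kid p c nw) :
    ∃ r r' : Pt, r ∈ p.Q ∧ r ≠ c.k ∧ r' ∈ c.Q ∧ r' ≠ c.k ∧ r ∉ c.Q ∧ c.k ∉ c.Q ∧
      (∀ q ∈ c.Q, q = r' ∨ q ∈ p.Q) ∧ (∀ q ∈ p.Q, q = r ∨ q = c.k ∨ q ∈ c.Q) ∧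
      ((nw = 0 ∧ r 0 = r' 0 ∧ r 1 = r' 1 ∧ r 2 = r' 2 ∧ r 3 ≠ r' 3) ∨
       (nw ≠ 0 ∧ r 3 = r' 3 ∧ ∃ d, tk r d = tk r' d ∧ tk3 r' = tk r' d ::ₘ nw ∧
          ∀ d', d' ≠ d → tk r' d' ∈ nw)) := by
  obtain ⟨r, r', i, h1, h2, h3, h4, h5, h6, h7, h8, -⟩ := h
  have hne : r ≠ r' := fun e => h5 (by rw [e])
  refine ⟨r, r', h1, h2, by simp [h7], h4, by simp [h7, hne], by simp [h7, h4.symm], ?_, ?_, ?_⟩
  · intro q hq
    rw [h7, mem_insert] at hq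
    exact hq.imp id fun h => mem_of_mem_erase (mem_of_mem_erase h)
  · intro q hq
    by_cases a : q = r
    · exact Or.inl a
    by_cases b : q = c.k
    · exact Or.inr (Or.inl b)
    exact Or.inr (Or.inr (by simp [h7, a, b, hq]))
  · subst h8
    rcases f4 i with rfl | rfl | rfl | rfl
    · refine Or.inr ⟨by simp [newt], h6 3 (by decide), 0,
        by simp [h6 1 (by decide), h6 2 (by decide)], rfl, fun d' hd => ?_⟩
      rcases f3 d' with rfl | rfl | rfl <;> simp [newt] at hd ⊢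
    · refine Or.inr ⟨by simp [newt], h6 3 (by decide), 1,
        by simp [h6 0 (by decide), h6 2 (by decide)], Multiset.cons_swap (tk r' 0) (tk r' 1) {tk r' 2}, fun d' hd => ?_⟩
      rcases f3 d' with rfl | rfl | rfl <;> simp [newt] at hd ⊢
    · refine Or.inr ⟨by simp [newt], h6 3 (by decide), 2,
        by simp [h6 0 (by decide), h6 1 (by decide)], ?_, fun d' hd => ?_⟩
      · show tk r' 0 ::ₘ tk r' 1 ::ₘ tk r' 2 ::ₘ 0 = tk r' 2 ::ₘ tk r' 0 ::ₘ tk r' 1 ::ₘ 0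
        rw [Multiset.cons_swap (tk r' 1), Multiset.cons_swap (tk r' 0)]
      · rcases f3 d' with rfl | rfl | rfl <;> simp [newt] at hd ⊢
    · exact Or.inl ⟨rfl, h6 0 (by decide), h6 1 (by decide), h6 2 (by decide), h5⟩

theorem Kid.sound {p c : Nd} {nw : Multiset Site} (h : Kid p c nw) (hp : p.Sound) : c.Sound := by
  obtain ⟨r, r', a1, a2, a3, a4, a5, a6, a7, a8, a9⟩ := h.form
  obtain ⟨-, -, -, -, -, -, -, -, -, -, -, hT⟩ := h
  have h1 : tk3 r' ≤ nw + tk3 r := by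
    rcases a9 with ⟨rfl, b0, b1, b2, -⟩ | ⟨-, -, d, b1, b2, -⟩
    · simp [tk3, b0, b1, b2]
    · rw [b2, ← b1, ← Multiset.singleton_add, add_comm]
      exact add_le_add_right (Multiset.singleton_le.2 (mem_tk3.2 ⟨d, rfl⟩)) _
  have h2 : c.Q.erase r' ⊆ p.Q.erase r := fun q hq => by
    obtain ⟨b1, b2⟩ := mem_erase.1 hq
    exact mem_erase.2 ⟨fun e => a5 (e ▸ b2), (a7 q b2).resolve_left b1⟩
  have h3 : toks (c.Q.erase r') ≤ toks (p.Q.erase r) := sum_le_sum_of_subset h2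
  have h4 : toks c.Q = tk3 r' + toks (c.Q.erase r') := (add_sum_erase _ _ a3).symm
  have h5 : toks p.Q = tk3 r + toks (p.Q.erase r) := (add_sum_erase _ _ a1).symm
  unfold Nd.Sound at hp ⊢
  rw [hT, h4]
  refine (add_le_add h1 h3).trans ?_
  rw [add_assoc, ← h5]
  exact add_le_add_right hp _

end Pool.Agent.MP_6bef34_co.H88
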