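import Pool.Agent.MP_6bef34_co.H7.Geo

/-! Points, rook lines and tokens for the hexagonal frame on `ℤ^4`. -/

namespace Pool.Agent.MP_6bef34_co.H88

open Finset
open Pool.Agent.MP_6bef34_co.H7 (Site d)

/-- squares of the board -/
abbrev Pt : Type := Fin 4 → ℤ

/-- the square above a site -/
def sp (s : Site) (w : ℤ) : Pt := ![s.1, s.2, -s.1 - s.2, w]

/-- offset of the centre of the triangle `(b, b + d i, b + d (i + 1))` -/
def tau (i : ZMod 6) : ℤ × ℤ × ℤ :=
  if i = 0 then (-1, 0, 0) else if i = 1 then (0, 1, 0) else if i = 2 then (0, 0, -1)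
  else if i = 3 then (1, 0, 0) else if i = 4 then (0, -1, 0) else (0, 0, 1)

/-- the square above the triangle `(b, b + d i, b + d (i + 1))` -/
def tp (b : Site) (i : ZMod 6) (w : ℤ) : Pt :=
  ![b.1 + (tau i).1, b.2 + (tau i).2.1, -b.1 - b.2 + (tau i).2.2, w]

/-- the squares differ in exactly one coordinate -/
def Ham1 (r x : Pt) : Prop := ∃ i, r i ≠ x i ∧ ∀ j, j ≠ i → r j = x j

/-- some rook is on a line through `x` -/
def Att (Q : Finset Pt) (x : Pt) : Prop := ∃ r ∈ Q, Ham1 r x

/-- a king step -/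
def Near (k k' : Pt) : Prop := k' ≠ k ∧ ∀ i, |k' i - k i| ≤ 1

/-- the site met by the line of `r` in direction `u` -/
def tk (r : Pt) (u : Fin 3) : Site :=
  if u = 0 then (-r 1 - r 2, r 1) else if u = 1 then (r 0, -r 0 - r 2) else (r 0, r 1)

/-- the three tokens of a rook -/
def tk3 (r : Pt) : Multiset Site := {tk r 0, tk r 1, tk r 2}

/-- all tokens -/
def toks (Q : Finset Pt) : Multiset Site := ∑ r ∈ Q, tk3 r

/-- the tokens made by a move in direction `i` that ends on `r` -/
def newt (r : Pt) (i : Fin 4) : Multiset Site :=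
  if i = 0 then {tk r 1, tk r 2} else if i = 1 then {tk r 0, tk r 2}
  else if i = 2 then {tk r 0, tk r 1} else 0

/-- a node of the explored tree: king, rooks after the reply, tokens made so far, depth left -/
structure Nd where
  k : Pt
  Q : Finset Pt
  T : Multiset Site
  n : ℕ

/-- `c` is reached from `p` by a king move to `c.k` and a reply that makes the tokens `nw` -/
def Kid (p c : Nd) (nw : Multiset Site) : Prop :=
  ∃ (r r' : Pt) (i : Fin 4), r ∈ p.Q ∧ r ≠ c.k ∧ r' ∉ p.Q.erase c.k ∧ r' ≠ c.k ∧ r i ≠ r' i ∧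
    (∀ j, j ≠ i → r j = r' j) ∧ c.Q = insert r' ((p.Q.erase c.k).erase r) ∧
    nw = newt r' i ∧ c.T = nw + p.T

/-- the tokens in sight are among the tokens made -/
def Nd.Sound (p : Nd) : Prop := toks p.Q ≤ p.T

/-- level of the king -/
def Nd.lv (p : Nd) : ℤ := p.k 3

/-- tokens made on a site -/
def Nd.cnt (p : Nd) (s : Site) : ℕ := p.T.count s

/-- the site is attacked on the three levels of the window -/
def Nd.Blk (p : Nd) (s : Site) : Prop :=
  Att p.Q (sp s (p.lv - 1)) ∧ Att p.Q (sp s p.lv) ∧ Att p.Q (sp s (p.lv + 1))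

/-- a rook stands above the site -/
def Col (Q : Finset Pt) (s : Site) : Prop := ∃ w, sp s w ∈ Q

/-- blocked by three single lines -/
def Nd.NC3 (p : Nd) (s : Site) : Prop := p.Blk s ∧ p.cnt s ≤ 3 ∧ ¬ Col p.Q s

/-- blocked by one rook above the site -/
def Nd.COL (p : Nd) (s : Site) : Prop := p.Blk s ∧ p.cnt s ≤ 3 ∧ Col p.Q s

/-- a rook on level `w` has a line through the site -/
def Line (Q : Finset Pt) (s : Site) (w : ℤ) : Prop := ∃ r ∈ Q, r 3 = w ∧ s ∈ tk3 r

open Classical in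
/-- number of levels of the window with a line through the site -/
noncomputable def Nd.nB (p : Nd) (s : Site) : ℕ :=
  (if Line p.Q s (p.lv - 1) then 1 else 0) + (if Line p.Q s p.lv then 1 else 0) +
    (if Line p.Q s (p.lv + 1) then 1 else 0)

/-- a sign -/
def Sg (s : ℤ) : Prop := s = 1 ∨ s = -1

/-- an offset in the window -/
def Of (e : ℤ) : Prop := e = -1 ∨ e = 0 ∨ e = 1

/-- the king can climb on one side -/
def Nd.H1 (p : Nd) (b : Site) : Prop :=
  ¬ Col p.Q b ∧ p.nB b ≤ 1 ∧ ∃ s, Sg s ∧ ¬ Line p.Q b (p.lv + s) ∧ ¬ Line p.Q b (p.lv + 2 * s)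

/-- one of the two gates of the corner of the dart `(b, i)` is free -/
def Nd.Gate (p : Nd) (b : Site) (i : ZMod 6) : Prop :=
  ∃ e, Of e ∧ (¬ Att p.Q (tp b i (p.lv + e)) ∨ ¬ Att p.Q (tp (b + d i) (i + 1) (p.lv + e)))

end Pool.Agent.MP_6bef34_co.H88
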