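import Pool.Agent.MP_6bef34_co.H88.Good
import Pool.Agent.MP_6bef34_co.H92.Node

/-! Absorbing the corner, landing on the corner. -/

namespace Pool.Agent.MP_6bef34_co.H88

open Finset
open Pool.Agent.MP_6bef34_co.H7 (Site d Wall Box need corner add_d_ne add_d_inj d_add d_add3
  wall_insert)
open Pool.Agent.MP_6bef34_co.H28
open Pool.Agent.MP_6bef34_co.H50

variable {Lo : Pt → Finset Pt → Prop} {N : ℤ} {s t : St Nd} {b : Site} {i : ZMod 6} {p c : Nd}

theorem o_ne (b : Site) (i : ZMod 6) : b + d (i + 1) + d i ≠ b := fun e =>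
  (by decide : ∀ i : ZMod 6, d (i + 1) + d i ≠ 0) i (by rwa [add_assoc, add_eq_left] at e)

theorem corner_eq (he : s.e = (b, i)) : corner s.e = b + d (i + 1) := by rw [he]; rfl

theorem head_ne (he : s.e = (b, i)) (hx : ¬ Wall s.De (b + d (i + 1))) :
    s.e ≠ ((0, 0), 0) := fun e => by
  obtain ⟨rfl, rfl⟩ := Prod.ext_iff.1 (he.symm.trans e)
  exact hx (Or.inl (by decide))

theorem C3.claim {f : ℤ} (h : C3 s b i f) (m : ℕ) : C3 (s.claim b m) b i f := by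
  have a1 : (s.claim b m).c (b + d i) = s.c (b + d i) := s.c_claim_ne m (add_d_ne _ _)
  have a2 : (s.claim b m).c (b + d (i + 1) + d i) = s.c (b + d (i + 1) + d i) :=
    s.c_claim_ne m (o_ne b i)
  have b1 : ColOK s b i → ColOK (s.claim b m) b i := fun a => by
    unfold ColOK
    rw [a1, a2]
    exact a
  have b2 : NCok s b i → NCok (s.claim b m) b i := fun a => by
    unfold NCok
    rw [a1, a2]
    exact a
  refine ⟨h.1, h.2.imp id fun a => ⟨a.1, a.2.1, ?_⟩⟩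
  rcases a.2.2 with a | a | a | a | a
  · exact Or.inl a
  · exact Or.inr (Or.inl a)
  · exact Or.inr (Or.inr (Or.inl ⟨a.1, a.2.1, b1 a.2.2⟩))
  · exact Or.inr (Or.inr (Or.inr (Or.inl a)))
  · exact Or.inr (Or.inr (Or.inr (Or.inr ⟨a.1, b1 a.2.1, b2 a.2.2⟩)))

/-- a claim on the head site, in explicit form -/
theorem claim_head (h : Inv (par Lo N) s) (he : s.e = (b, i)) (hv : b ∉ s.V) (m : ℕ)
    (hz : s.c b + m ≤ s.z b)
    (hc : b + d (i + 1) ∉ s.R ∨ s.c b + m ≤ 2 ∨ ¬ s.U (b + d (i + 4))) :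
    Inv (par Lo N) (s.claim b m) := by
  have e1 : s.e.1 = b := by rw [he]
  have e2 : s.e.2 = i := by rw [he]
  have := h.claimB (by rwa [e1]) m (by rwa [e1]) (by
    rw [corner_eq he, e1, e2]
    tauto)
  rwa [e1] at this

/-- claim the spare tokens of `b` -/
theorem post3 (h : Inv (par Lo N) s) (he : s.e = (b, i)) (hv : b ∉ s.V)
    (hc : C3 s b i (fl s b)) : Wk Lo N s := by
  have hz := h.cz b
  have h1 := claim_head h he hv (s.z b - s.c b) (by omega) (Or.inr (Or.inr hc.1))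
  refine ⟨_, good_c3 h1 he hv ?_, le_rfl⟩
  have : (s.claim b (s.z b - s.c b)).g = fl s b := by
    rw [St.g_claim, fl, Nat.cast_sub hz]
    ring
  rw [this]
  exact hc.claim _

/-- the common part of the three ways to absorb the corner -/
theorem at_of (h : Inv (par Lo N) s) (he : s.e = (b, i)) (hx : s.U (b + d (i + 1))) {u : St Nd}
    (hu : Inv (par Lo N) u) (h1 : u.e = s.e) (h2 : u.De = insert (b + d (i + 1)) s.De)
    (h3 : u.R = s.R) (h4 : u.V = s.V) (h5 : u.Z = s.Z) (h6 : u.nd = s.nd) (h7 : s.mu ≤ u.mu)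
    (h8 : ∀ y, y ≠ b + d (i + 1) → y ≠ b + d i → y ≠ b + d (i + 1) + d i → u.c y = s.c y) :
    AT Lo N s u.turn b i ∧ u.turn.g = u.g := by
  have he' : u.e = (b, i) := h1.trans he
  obtain ⟨a1, a2, a3⟩ := hu.turn (by rw [corner_eq he', h2]; exact wall_insert.2 (Or.inl rfl))
    (Or.inl (h1 ▸ head_ne he hx.1))
  refine ⟨⟨a1, by rw [St.turn_e, he'], h2, h3, h4, h5, h6, ?_, by omega, h8, fun b1 b2 => ?_⟩, a2⟩
  · rw [St.turn_O, he']
    exact mem_insert_self _ _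
  · obtain ⟨P, L, rfl⟩ := exists_loc b i
    have e : P 0 0 + d (i + 1 + 1) + d (i + 1) = P 0 0 + d (i + 1) + d (i + 2) := by
      simp only [ix11, L.s1, L.s2]
    rw [e] at b1 b2 ⊢
    have b3 : s.U (P 0 0 + d (i + 1) + d (i + 2)) := by
      rw [St.turn_U, St.U, h2, h3, wall_insert] at b1
      exact ⟨fun a => b1.1 (Or.inr a), b1.2⟩
    rw [St.turn_c, h8 _ (add_d_ne _ _) (by simp [L.s0, L.s1, L.s2, L.inj])
      (by simp [L.s0, L.s1, L.s2, L.inj])]
    exact h.clean hx b3 (by rw [St.turn_De, h2] at b2; exact b2)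

theorem at_own (h : Inv (par Lo N) s) (he : s.e = (b, i)) (hx : s.U (b + d (i + 1)))
    (hB : Box (par Lo N).M (b + d (i + 1))) (m : ℕ) (h1 : s.c (b + d (i + 1)) ≤ m)
    (h2 : m ≤ s.z (b + d (i + 1))) (h4 : m ≤ 4) :
    ∃ t, AT Lo N s t b i ∧ t.c (b + d (i + 1)) = m ∧ (∀ u, u ≠ b + d (i + 1) → t.c u = s.c u) ∧
      t.g = s.g - need s.De (b + d (i + 1)) + m - s.c (b + d (i + 1)) := by
  have a := h.absorbC hx hB (m - s.c (b + d (i + 1))) (by omega) (by omega)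
  have hc : ∀ u, u ≠ b + d (i + 1) →
      ((s.absorb (b + d (i + 1))).claim (b + d (i + 1)) (m - s.c (b + d (i + 1)))).c u = s.c u :=
    fun u e => St.c_claim_ne _ _ e
  obtain ⟨a1, a2⟩ := at_of h he hx a rfl rfl rfl rfl rfl rfl
    (by rw [St.claim_mu, St.mu_absorb hx]; omega) fun y e _ _ => hc y e
  refine ⟨_, a1, ?_, hc, ?_⟩
  · rw [St.turn_c, St.c_claim_self, St.absorb_c]
    omega
  · rw [a2, h.g_absorbC hx, Nat.cast_sub h1]
    ring

theorem wall_a (h : Inv (par Lo N) s) (he : s.e = (b, i)) :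
    Wall s.De (b + d (i + 1) + d (i + 5)) := by
  have := head_wall h he
  obtain ⟨P, L, rfl⟩ := exists_loc b i
  simpa only [L.s0, L.s1, L.s5, zero_add, add_sub_cancel_right, sub_self] using this

theorem at_left (h : Inv (par Lo N) s) (he : s.e = (b, i)) (hx : s.U (b + d (i + 1)))
    (hB : Box (par Lo N).M (b + d (i + 1))) (h3 : 3 ≤ s.z (b + d (i + 1)))
    (ha : s.c (b + d i) < s.z (b + d i)) :
    ∃ t, AT Lo N s t b i ∧ t.c (b + d (i + 1)) = 3 ∧ s.g ≤ t.g := by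
  have h2 := h.u2 _ hx
  have hp := (price h hx (wall_a h he)).1
  have a := h.absorbA he hx hB (3 - s.c (b + d (i + 1))) (by omega) (by omega) ha
  have ne : b + d (i + 1) ≠ b + d i := fun e => hx.1 (e ▸ head_wall h he)
  obtain ⟨a1, a2⟩ := at_of h he hx a rfl rfl rfl rfl rfl rfl
    (by rw [St.claim_mu, St.claim_mu, St.mu_absorb hx]; omega) fun y e e' _ => by
      rw [St.c_claim_ne _ _ e', St.c_claim_ne _ _ e, St.absorb_c]
  refine ⟨_, a1, ?_, ?_⟩
  · rw [St.turn_c, St.c_claim_ne _ _ ne, St.c_claim_self, St.absorb_c]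
    omega
  · rw [a2, St.g_claim, h.g_absorbC hx, Nat.cast_sub (by omega)]
    push_cast
    omega

theorem at_borrow (h : Inv (par Lo N) s) (he : s.e = (b, i)) (hx : s.U (b + d (i + 1)))
    (hB : Box (par Lo N).M (b + d (i + 1))) (h3 : 3 ≤ s.z (b + d (i + 1)))
    (ho : s.U (b + d (i + 1) + d i)) (h1 : K1 s.De (b + d (i + 1) + d i))
    (hz : s.c (b + d (i + 1) + d i) < s.z (b + d (i + 1) + d i)) :
    ∃ t, AT Lo N s t b i ∧ t.c (b + d (i + 1)) = 3 ∧ s.g ≤ t.g := by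
  have h2 := h.u2 _ hx
  have hp := (price h hx (wall_a h he)).1
  have e1 : b + d i + d (i + 1 + 1) = b + d (i + 1) := by rw [ix11, add_assoc, d_add]
  have e2 : b + d i + d (i + 1) = b + d (i + 1) + d i := add_right_comm _ _ _
  have a := h.absorbB (a := b + d i) (k := i + 1) (head_wall h he) (e1 ▸ hx) (e1 ▸ hB)
    (3 - s.c (b + d (i + 1))) (by rw [e1]; omega) (by rw [e1]; omega) (e2 ▸ ho)
    (e2 ▸ h.u1 _ ho h1) (e2 ▸ hz)
  rw [e1, e2] at a
  obtain ⟨a1, a2⟩ := at_of h he hx a rfl rfl rfl rfl rfl rfl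
    (by rw [St.claim_mu, St.claim_mu, St.mu_absorb hx]; omega) fun y e _ e' => by
      rw [St.c_claim_ne _ _ e', St.c_claim_ne _ _ e, St.absorb_c]
  refine ⟨_, a1, ?_, ?_⟩
  · rw [St.turn_c, St.c_claim_ne _ _ (add_d_ne _ _).symm, St.c_claim_self, St.absorb_c]
    omega
  · rw [a2, St.g_claim, h.g_absorbC hx, Nat.cast_sub (by omega)]
    push_cast
    omega

theorem cont_post (h : Inv (par Lo N) t) (he : t.e = (b, i + 1)) (hO : (b, i) ∈ t.O)
    (hv : b ∉ t.V) (hg : 0 ≤ fl t b) (hw : ¬ Wall t.De (b + d (i + 2)))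
    (hH : (node t b).nB b ≤ 2) (hc : t.c (b + d (i + 1)) ≤ 3)
    (hf : t.U (b + d (i + 1 + 1) + d (i + 1)) → K1 t.De (b + d (i + 1 + 1) + d (i + 1)) →
      t.c (b + d (i + 1 + 1) + d (i + 1)) = 0)
    (hb : (node t b).Blk (b + d (i + 1))) (hz : t.z (b + d (i + 1)) ≤ 3) (hC : Cont t b i) :
    Wk Lo N t := by
  have hcol : ColOK t b (i + 1) := fun _ _ a1 a2 => by
    rw [hf a1 a2]
    omega
  refine post3 h he hv ⟨?_, Or.inr ⟨by rwa [ix11], hg, ?_⟩⟩
  · rw [ix14]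
    exact h.back_dec (mem_insert_of_mem hO)
  rw [ix12, ix13]
  rcases hC with a | ⟨a, a1 | a1 | a1⟩
  · exact Or.inl a.1
  · exact Or.inr (Or.inr (Or.inl ⟨hH, a1, hcol⟩))
  · refine Or.inr (Or.inr (Or.inr (Or.inr ⟨a, hcol, fun _ b1 b2 b3 _ b5 => ?_⟩)))
    have b6 : t.z (b + d (i + 1 + 1) + d (i + 1)) = 0 := by
      rw [hf b2 b3] at b5
      omega
    exact ⟨b6, pair_game (node_ok h (head_R h he) hv).1.2 ⟨hb, hz, a1⟩ b1 hH b6⟩
  · exact Or.inr (Or.inr (Or.inr (Or.inr ⟨a, hcol, fun _ b1 => absurd (ix11 i ▸ b1) a1⟩)))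

/-- the state after the landing -/
theorem land_at (G : Gm Lo N) (h : Inv (par Lo N) s) (he : s.e = (b, i)) {y : Site}
    (hy : y = b + d (i + 1)) (hx : s.U y) (hr : RcOK s b i) (hc : c.Ok Lo) (ho : c.On y)
    (hT : c.T = s.Z) : Inv (par Lo N) (s.land c) ∧ (s.land c).e = (y, i - 1) ∧
      (s.land c).g = s.g + 2 ∧ (s.land c).mu = s.mu + 1 ∧ node (s.land c) y = c ∧
      y ∉ (s.land c).V ∧ ∀ u, (s.land c).U u ↔ u ≠ y ∧ s.U u := by
  have e : corner s.e = y := (corner_eq he).trans hy.symm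
  have e1 : s.e.1 = b := by rw [he]
  have e2 : s.e.2 = i := by rw [he]
  obtain ⟨a1, a2, a3⟩ := h.land (e ▸ hx) (n := c) (e ▸ ⟨hc.1, hT ▸ hc.2, ho⟩)
    (e ▸ (box_on G hc ho).mono (by simp only [par]; omega)) (by rw [e1, e2]; exact hr)
  refine ⟨a1, by rw [St.land_e, e, e2], a2, a3, ?_, fun a => hx.2 (h.vR a), fun u => ?_⟩
  · simp only [node, St.land_nd, e, Function.update_self, St.land_Z, ← hT]
  · rw [St.U_land, e]

/-- the column bound for the dart `(y, j)` before `y` is entered -/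
theorem col_j0 (h : Inv (par Lo N) s) {y : Site} {j : ZMod 6} (hw : Wall s.De (y + d j))
    (hy : s.U y) (h1 : K1 s.De y) (hx : s.U (y + d (j + 1))) (ho : s.U (y + d (j + 1) + d j))
    (hk : K1 s.De (y + d (j + 1) + d j)) :
    s.c (y + d j) + s.c y + s.c (y + d (j + 1) + d j) ≤ 5 := by
  have e1 : y + d j + d (j + 1) = y + d (j + 1) + d j := add_right_comm _ _ _
  have e2 : y + d j + d (j + 1 + 1) = y + d (j + 1) := by rw [ix11, add_assoc, d_add]
  have e3 : y + d j + d (j + 1 + 2) = y := by rw [ix12, add_assoc, d_add3, add_zero]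
  have := h.j0 (y + d j) (j + 1) hw (e1 ▸ ho) (e2 ▸ hx) (e3.symm ▸ hy) (e1 ▸ hk) (e3.symm ▸ h1)
  rwa [e1, e3] at this

theorem land4 (G : Gm Lo N) (h : Inv (par Lo N) s) (he : s.e = (b, i)) {y : Site} {j : ZMod 6}
    (hy : y = b + d (i + 1)) (hj : j + 1 = i) (hx : s.U y) (h0 : K0 s.De y) (hr : RcOK s b i)
    (hc : c.Ok Lo) (ho : c.On y) (hT : c.T = s.Z)
    (hG : c.G4 y j (K0 s.De (y + d (j + 1))) (s.g + 2)) : Nx Lo N s := by
  obtain ⟨a1, a2, a3, a4, a5, a6, a7⟩ := land_at G h he hy hx hr hc ho hT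
  have ej : i - 1 = j := by rw [← hj, add_sub_cancel_right]
  rw [ej] at a2
  have hw : Wall s.De (y + d j) := (head_wall a1 a2 :)
  have hw1 : ¬ Wall s.De (y + d (j + 1)) := fun a =>
    (by decide : ∀ j : ZMod 6, j ≠ j + 1) j (h0 _ _ hw a)
  have c0 : s.c y = 0 := h.u0 y hx h0
  have cz : c.cnt y = s.z y := by rw [Nd.cnt, hT]; rfl
  rcases hG with hG | hG
  · obtain ⟨m, m1, m2, m3⟩ : ∃ m : ℕ, m ≤ 2 ∧ 0 ≤ s.g + 2 + m ∧ m ≤ s.z y := by
      refine ⟨(-(s.g + 2)).toNat, ?_, ?_, ?_⟩ <;> have := hG.1 <;> rcases hG.2 with a | a | a <;>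
        omega
    have b1 := claim_head a1 a2 a6 m (by simp only [St.land_c, St.land_z]; omega)
      (Or.inr (Or.inl (by simp only [St.land_c]; omega)))
    have b2 : ((s.land c).claim y m).c y = m := by
      rw [St.c_claim_self, St.land_c, c0, zero_add]
    have b3 : fl ((s.land c).claim y m) y = s.g + 2 + c.cnt y := by
      rw [fl, b2, St.g_claim, a3, St.claim_z, St.land_z, cz]
      ring
    refine (good_c4 b1 a2 a6 (by rw [St.g_claim, a3]; exact m2) ⟨hw1, by omega, ?_⟩).wk.nx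
      (by rw [St.claim_mu, a4]; omega)
    rw [b3, show node ((s.land c).claim y m) y = c from a5]
    exact hG.2.imp id fun a => a.imp id Or.inl
  · refine (good_c4 a1 a2 a6 (a3 ▸ hG.1) ⟨hw1, by rw [St.land_c]; omega,
      Or.inr (Or.inr (Or.inr ⟨cz ▸ hG.2.1, fun _ b2 b3 b4 => ?_, ?_⟩))⟩).wk.nx (by omega)
    · have b5 := col_j0 h hw hx h0.k1 ((a7 _).1 b2).2 ((a7 _).1 b3).2 b4
      have b6 := Nd.nB_le_cnt hc.2 y
      rw [a5]
      simp only [St.land_c]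
      omega
    · rw [a5]
      exact hG.2.2

/-- three open positions after a landing -/
theorem c3_of_g3 (h : Inv (par Lo N) s) {y : Site} {j : ZMod 6} (hy : s.U y) (h1 : K1 s.De y)
    (hc : c.Ok Lo) (hT : c.T = s.Z) (hw : Wall s.De (y + d j))
    (hw1 : ¬ Wall s.De (y + d (j + 1))) (ht : node t y = c) (hD : t.De = s.De) (hC : t.C = s.C)
    (hZ : t.Z = s.Z) (hU : ∀ u, t.U u → s.U u) (hg : t.g = s.g + 2) (h4 : ¬ t.U (y + d (j + 4)))
    (hG : c.G3 y (y + d (j + 1)) (s.c y) (s.g + 2)) : C3 t y j (fl t y) := by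
  have cz : c.cnt y = s.z y := by rw [Nd.cnt, hT]; rfl
  have hc' : ∀ u, t.c u = s.c u := fun u => by simp only [St.c, hC]
  have hf : fl t y = s.g + 2 + c.cnt y - s.c y := by simp only [fl, hg, hc', St.z, hZ, cz]
  have hz := h.cz y
  have hu := h.u1 y hy h1
  have b6 := Nd.nB_le_cnt hc.2 y
  refine ⟨h4, ?_⟩
  rw [hf, hD, ht]
  rcases hG with a | a | a
  · exact Or.inl a
  · exact Or.inr ⟨hw1, by omega, Or.inr (Or.inl ⟨a.1, Or.inr a.2⟩)⟩
  · refine Or.inr ⟨hw1, by omega, Or.inr (Or.inr (Or.inr (Or.inr ⟨by omega, ?_, ?_⟩)))⟩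
    · intro _ b2 b3 b4
      have b5 := col_j0 h hw hy h1 (hU _ b2) (hU _ b3) (hD ▸ b4)
      rw [ht, hc', hc']
      omega
    · intro _ b2
      exact absurd (ht ▸ b2) a.2.2

/-- the wall neighbours of a notch -/
theorem notch (h : Inv (par Lo N) s) (he : s.e = (b, i)) {y : Site} (hy : y = b + d (i + 1))
    (h1 : K1 s.De y) (h0 : ¬ K0 s.De y) : Wall s.De (y + d i) ∧ ¬ Wall s.De (y + d (i + 1)) := by
  have hw : Wall s.De (y + d (i + 5)) := hy ▸ wall_a h he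
  have hb : ¬ Wall s.De (y + d (i + 4)) := by
    rw [hy, add_assoc, ← ix13, d_add3, add_zero]
    exact h.geo.free _ (head_R h he)
  have a : Wall s.De (y + d i) := by
    by_contra a
    exact h0 (h1.k0' hw (by rwa [ix51]) (by rwa [ix55]))
  refine ⟨a, fun a1 => ?_⟩
  obtain ⟨m, hm⟩ := h1
  exact (by decide : ∀ i m : ZMod 6, i + 5 = m ∨ i + 5 = m + 1 → i + 1 = m ∨ i + 1 = m + 1 → False)
    i m (hm _ hw) (hm _ a1)

theorem back_b (b : Site) (i : ZMod 6) : b + d (i + 1) + d (i + 4) = b := by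
  rw [add_assoc, ← ix13, d_add3, add_zero]

/-- the state after the landing on a notch and the turn -/
theorem notch_at (G : Gm Lo N) (h : Inv (par Lo N) s) (he : s.e = (b, i)) {y : Site}
    (hy : y = b + d (i + 1)) (hx : s.U y) (h1 : K1 s.De y) (h0 : ¬ K0 s.De y) (hr : RcOK s b i)
    (hc : c.Ok Lo) (ho : c.On y) (hT : c.T = s.Z) :
    Inv (par Lo N) (s.land c).turn ∧ (s.land c).turn.e = (y, i) ∧
      (s.land c).turn.g = s.g + 2 ∧ s.mu < (s.land c).turn.mu ∧ node (s.land c).turn y = c ∧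
      y ∉ (s.land c).turn.V ∧ ∀ u, (s.land c).turn.U u ↔ u ≠ y ∧ s.U u := by
  obtain ⟨a1, a2, a3, a4, a5, a6, a7⟩ := land_at G h he hy hx hr hc ho hT
  obtain ⟨b1, b2, b3⟩ := a1.turn
    (by rw [corner_eq a2, sub_add_cancel]; exact (notch h he hy h1 h0).1)
    (Or.inl fun e => hx.2
      ((show y = (0, 0) from (Prod.ext_iff.1 (a2.symm.trans e)).1) ▸ h.geo.root))
  exact ⟨b1, by rw [St.turn_e, a2, sub_add_cancel], b2.trans a3, by omega, a5, a6, a7⟩

theorem land3n (G : Gm Lo N) (h : Inv (par Lo N) s) (he : s.e = (b, i)) {y : Site}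
    (hy : y = b + d (i + 1)) (hx : s.U y) (h1 : K1 s.De y) (h0 : ¬ K0 s.De y) (hr : RcOK s b i)
    (hc : c.Ok Lo) (ho : c.On y) (hT : c.T = s.Z)
    (hG : c.G3 y (y + d (i + 1)) (s.c y) (s.g + 2)) : Nx Lo N s := by
  obtain ⟨a1, a2, a3, a4, a5, a6, a7⟩ := notch_at G h he hy hx h1 h0 hr hc ho hT
  obtain ⟨w0, w1⟩ := notch h he hy h1 h0
  refine (post3 a1 a2 a6 (c3_of_g3 h hx h1 hc hT w0 w1 a5 rfl rfl rfl (fun u a => ((a7 u).1 a).2)
    a3 (fun a => ((a7 _).1 a).2.2 ?_) hG)).nx a4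
  rw [hy, back_b]
  exact head_R h he

theorem land3t (G : Gm Lo N) (h : Inv (par Lo N) s) (he : s.e = (b, i)) {y : Site}
    (hy : y = b + d (i + 1)) (hx : s.U y) (h0 : K0 s.De y) (h2 : ¬ s.U (b + d (i + 2)))
    (hc : c.Ok Lo) (ho : c.On y) (hT : c.T = s.Z)
    (hG : c.G3 y (y + d i) 0 (s.g + 2)) : Nx Lo N s := by
  obtain ⟨a1, a2, a3, a4, a5, a6, a7⟩ :=
    land_at G h he hy hx (fun _ a => absurd a h2) hc ho hT
  have hw : Wall s.De (y + d (i - 1)) := (head_wall a1 a2 :)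
  have hw1 : ¬ Wall s.De (y + d (i - 1 + 1)) := fun a =>
    (by decide : ∀ j : ZMod 6, j ≠ j + 1) _ (h0 _ _ hw a)
  refine (post3 a1 a2 a6 (c3_of_g3 h hx h0.k1 hc hT hw hw1 a5 rfl rfl rfl
    (fun u a => ((a7 u).1 a).2) a3 (fun a => h2 ?_) ?_)).nx (by omega)
  · have e : y + d (i - 1 + 4) = b + d (i + 2) := by
      rw [hy, ix_m, ix54, add_assoc, ← ix12, d_add, ix11]
    exact e ▸ ((a7 _).1 a).2
  · rw [sub_add_cancel, h.u0 y hx h0]
    exact hG

theorem land_any (G : Gm Lo N) (h : Inv (par Lo N) s) (he : s.e = (b, i)) {y : Site}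
    (hy : y = b + d (i + 1)) (hx : s.U y) (h1 : K1 s.De y) (hr : RcOK s b i)
    (hp : p.Ok Lo) (hT : p.T = s.Z) (ha : p.Adj y) (hb : ¬ p.Blk y) (hg : 0 ≤ s.g)
    (hf : s.c y = 0 ∨ 1 ≤ fl s y) : Nx Lo N s := by
  by_cases h0 : K0 s.De y
  · obtain ⟨c, c1, c2, c3⟩ := land4_game G hp ha hb (i - 1) (K0 s.De (y + d (i - 1 + 1))) hg
    obtain ⟨nw, a1, a2, a3⟩ := ext_add h hT c1
    exact (land4 G a2 he hy (sub_add_cancel i 1) hx h0 hr c1.1 c2 a1.symm
      (c3.mono (by omega))).of_le le_rfl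
  · have cz : p.cnt y = s.z y := by rw [Nd.cnt, hT]; rfl
    obtain ⟨c, c1, c2, c3⟩ := land3_game G hp ha hb (y + d (i + 1)) (h.u1 y hx h1)
      (cz ▸ h.cz y) hg (by rw [cz]; exact hf)
    obtain ⟨nw, a1, a2, a3⟩ := ext_add h hT c1
    exact (land3n G a2 he hy hx h1 h0 hr c1.1 c2 a1.symm (c3.mono (by omega))).of_le le_rfl

end Pool.Agent.MP_6bef34_co.H88
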