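import Pool.Agent.MP_6bef34_co.H88.Defs
import Pool.Agent.MP_6bef34_co.H28.State
import Pool.Agent.MP_6bef34_co.H50.Loc

/-! The good states of the contour walk.  For the head `(b, i)`: `a = b + d i`,
`x = b + d (i + 1)`, `x2 = b + d (i + 2)`, `o = x + d i`. -/

namespace Pool.Agent.MP_6bef34_co.H88

open Finset
open Pool.Agent.MP_6bef34_co.H7 (Site d Wall Box need)
open Pool.Agent.MP_6bef34_co.H28

/-- what the labels know about the nodes -/
def par (Lo : Pt → Finset Pt → Prop) (N : ℤ) : Par Nd where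
  M := N + 3
  ok Z r n := Lo n.k n.Q ∧ toks n.Q ≤ Z ∧ n.On r
  mono h a := ⟨a.1, a.2.1.trans h, a.2.2⟩
  H n b := n.nB b ≤ 2
  Cok n b v := n.Blk v ∧ Col n.Q v ∧ n.nB b ≤ 1

/-- the node of `b` with all tokens of the state -/
def node (s : St Nd) (b : Site) : Nd := { s.nd b with T := s.Z }

/-- balance plus the spare tokens of `b` -/
def fl (s : St Nd) (b : Site) : ℤ := s.g + s.z b - s.c b

/-- room for the column rule -/
def ColOK (s : St Nd) (b : Site) (i : ZMod 6) : Prop :=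
  K0 s.De (b + d (i + 1)) → s.U (b + d (i + 1)) → s.U (b + d (i + 1) + d i) →
    K1 s.De (b + d (i + 1) + d i) →
    s.c (b + d i) + (node s b).nB b + s.c (b + d (i + 1) + d i) ≤ 5

/-- a tip blocked by three single lines can be passed unless a spare token pays it -/
def NCok (s : St Nd) (b : Site) (i : ZMod 6) : Prop :=
  K0 s.De (b + d (i + 1)) → (node s b).NC3 (b + d (i + 1)) → s.U (b + d (i + 1) + d i) →
    K1 s.De (b + d (i + 1) + d i) → s.z (b + d i) ≤ s.c (b + d i) →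
    s.z (b + d (i + 1) + d i) ≤ s.c (b + d (i + 1) + d i) →
    s.z (b + d (i + 1) + d i) = 0 ∧ (node s b).Gate b i

/-- the corner may become a right site -/
def RcOK (s : St Nd) (b : Site) (i : ZMod 6) : Prop :=
  b ∉ s.V → s.U (b + d (i + 2)) → s.U (b + d (i + 3)) → s.U (b + d (i + 4)) → s.c b ≤ 2

/-- at most three open positions, balance `f` -/
def C3 (s : St Nd) (b : Site) (i : ZMod 6) (f : ℤ) : Prop :=
  ¬ s.U (b + d (i + 4)) ∧ (2 ≤ f ∨ (¬ Wall s.De (b + d (i + 1)) ∧ 0 ≤ f ∧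
    (¬ s.U (b + d (i + 2)) ∨
     (1 ≤ f ∧ (¬ s.U (b + d (i + 3)) ∨ (node s b).nB b ≤ 2)) ∨
     ((node s b).nB b ≤ 2 ∧ ¬ s.U (b + d (i + 3)) ∧ ColOK s b i) ∨
     ((node s b).nB b ≤ 2 ∧ ¬ K0 s.De (b + d (i + 1))) ∨
     ((node s b).nB b ≤ 1 ∧ ColOK s b i ∧ NCok s b i))))

/-- four open positions -/
def C4 (s : St Nd) (b : Site) (i : ZMod 6) : Prop :=
  ¬ Wall s.De (b + d (i + 1)) ∧ s.c b ≤ 2 ∧
    (3 ≤ fl s b ∨ (2 ≤ fl s b ∧ (node s b).nB b ≤ 2) ∨ (1 ≤ fl s b ∧ (node s b).H1 b) ∨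
      (s.z b = 0 ∧ ColOK s b i ∧ (node s b).LC b i (K0 s.De (b + d (i + 1)))))

/-- an old dart of the head site lies ahead -/
def RV (s : St Nd) (b : Site) (i : ZMod 6) : Prop :=
  (b, i + 1) ∈ s.O ∨ (b, i + 2) ∈ s.O ∨ (b, i + 3) ∈ s.O

/-- what is known when the arrival carries a debt of two -/
def Dat (s : St Nd) (b : Site) (i : ZMod 6) : Prop :=
  (b + d (i + 1) ∉ s.V → s.U (b + d (i + 1) + d i) → s.U (b + d (i + 1) + d (i + 1)) →
    s.c (b + d (i + 1)) ≤ 2) ∧ s.c (b + d i) ≤ 3 ∧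
  (s.U (b + d i + d i) → K1 s.De (b + d i + d i) → s.c (b + d i + d i) = 0)

/-- the corner is a right site -/
def ARR (s : St Nd) (b : Site) (i : ZMod 6) : Prop :=
  b + d (i + 1) ∈ s.R ∧ (-1 ≤ s.g ∨ (-2 ≤ s.g ∧ Dat s b i))

/-- what makes the state good again after a tip was paid in full -/
def Cont (s : St Nd) (b : Site) (i : ZMod 6) : Prop :=
  (¬ s.U (b + d (i + 3)) ∧ ¬ s.U (b + d (i + 4))) ∨
    ((node s b).nB b ≤ 1 ∧ (¬ s.U (b + d (i + 4)) ∨
    Col (node s b).Q (b + d (i + 1)) ∨ ¬ (node s b).NC3 (b + d (i + 2))))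

/-- the good states -/
def Good (Lo : Pt → Finset Pt → Prop) (N : ℤ) (s : St Nd) : Prop :=
  Inv (par Lo N) s ∧ (ARR s s.e.1 s.e.2 ∨ (s.e.1 ∉ s.V ∧ 0 ≤ s.g ∧
    (RV s s.e.1 s.e.2 ∨ C3 s s.e.1 s.e.2 s.g ∨ C4 s s.e.1 s.e.2)))

/-- a good state with at least the measure of `s` -/
def Wk (Lo : Pt → Finset Pt → Prop) (N : ℤ) (s : St Nd) : Prop := ∃ t, Good Lo N t ∧ s.mu ≤ t.mu

/-- a good state with a larger measure -/
def Nx (Lo : Pt → Finset Pt → Prop) (N : ℤ) (s : St Nd) : Prop := ∃ t, Good Lo N t ∧ s.mu < t.mu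

/-- `t` arises from `s`, head `(b, i)`, by absorbing the corner, some claims and one turn -/
structure AT (Lo : Pt → Finset Pt → Prop) (N : ℤ) (s t : St Nd) (b : Site) (i : ZMod 6) : Prop where
  inv : Inv (par Lo N) t
  e : t.e = (b, i + 1)
  De : t.De = insert (b + d (i + 1)) s.De
  R : t.R = s.R
  V : t.V = s.V
  Z : t.Z = s.Z
  nd : t.nd = s.nd
  O : (b, i) ∈ t.O
  mu : s.mu < t.mu
  c : ∀ u, u ≠ b + d (i + 1) → u ≠ b + d i → u ≠ b + d (i + 1) + d i → t.c u = s.c u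
  fresh : t.U (b + d (i + 1 + 1) + d (i + 1)) → K1 t.De (b + d (i + 1 + 1) + d (i + 1)) →
    t.c (b + d (i + 1 + 1) + d (i + 1)) = 0

variable {Lo : Pt → Finset Pt → Prop} {N : ℤ} {s t : St Nd} {b : Site} {i : ZMod 6}

theorem Good.wk (h : Good Lo N s) : Wk Lo N s := ⟨s, h, le_rfl⟩

theorem Nx.wk (h : Nx Lo N s) : Wk Lo N s := let ⟨t, a, b⟩ := h; ⟨t, a, b.le⟩

theorem Wk.nx (h : Wk Lo N t) (hm : s.mu < t.mu) : Nx Lo N s :=
  let ⟨u, a, b⟩ := h; ⟨u, a, hm.trans_le b⟩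

theorem Wk.of_le (h : Wk Lo N t) (hm : s.mu ≤ t.mu) : Wk Lo N s :=
  let ⟨u, a, b⟩ := h; ⟨u, a, hm.trans b⟩

theorem Nx.of_le (h : Nx Lo N t) (hm : s.mu ≤ t.mu) : Nx Lo N s :=
  let ⟨u, a, b⟩ := h; ⟨u, a, hm.trans_lt b⟩

theorem good_arr (h : Inv (par Lo N) s) (he : s.e = (b, i)) (ha : ARR s b i) : Good Lo N s :=
  ⟨h, Or.inl (by rw [he]; exact ha)⟩

theorem good_rv (h : Inv (par Lo N) s) (he : s.e = (b, i)) (hv : b ∉ s.V) (hg : 0 ≤ s.g)
    (ha : RV s b i) : Good Lo N s := ⟨h, Or.inr (by rw [he]; exact ⟨hv, hg, Or.inl ha⟩)⟩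

theorem good_c3 (h : Inv (par Lo N) s) (he : s.e = (b, i)) (hv : b ∉ s.V)
    (ha : C3 s b i s.g) : Good Lo N s := by
  refine ⟨h, Or.inr ?_⟩
  rw [he]
  refine ⟨hv, ?_, Or.inr (Or.inl ha)⟩
  rcases ha.2 with a | a
  · omega
  · exact a.2.1

theorem good_c4 (h : Inv (par Lo N) s) (he : s.e = (b, i)) (hv : b ∉ s.V) (hg : 0 ≤ s.g)
    (ha : C4 s b i) : Good Lo N s :=
  ⟨h, Or.inr (by rw [he]; exact ⟨hv, hg, Or.inr (Or.inr ha)⟩)⟩

theorem node_cnt (s : St Nd) (b u : Site) : (node s b).cnt u = s.z u := rfl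

theorem node_T (s : St Nd) (b : Site) : (node s b).T = s.Z := rfl

theorem head_mem (he : s.e = (b, i)) : (b, i) ∈ insert s.e s.O := he ▸ mem_insert_self _ _

theorem head_R (h : Inv (par Lo N) s) (he : s.e = (b, i)) : b ∈ s.R :=
  (h.geo.ok _ (head_mem he)).2

theorem head_wall (h : Inv (par Lo N) s) (he : s.e = (b, i)) : Wall s.De (b + d i) :=
  h.wall_of (head_mem he)

theorem node_ok (h : Inv (par Lo N) s) (hr : b ∈ s.R) (hv : b ∉ s.V) :
    (node s b).Ok Lo ∧ (node s b).On b :=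
  let ⟨a1, a2, a3⟩ := h.node b hr hv
  ⟨⟨a1, a2⟩, a3⟩

theorem box_on (G : Gm Lo N) {c : Nd} (hc : c.Ok Lo) (ho : c.On b) : Box N b := by
  have := G.box _ _ hc.1
  rw [ho] at this
  exact this

theorem box_real (G : Gm Lo N) (h : Inv (par Lo N) s) (hr : b ∈ s.R) (hv : b ∉ s.V) : Box N b :=
  box_on G (node_ok h hr hv).1 (node_ok h hr hv).2

theorem box1 (h : Box N b) (j : ZMod 6) : Box (par Lo N).M (b + d j) :=
  (h.step j).mono (by simp only [par]; omega)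

theorem box2 (h : Box N b) (j k : ZMod 6) : Box (par Lo N).M (b + d j + d k) :=
  ((h.step j).step k).mono (by simp only [par]; omega)

theorem box3 (h : Box N b) (j k l : ZMod 6) : Box (par Lo N).M (b + d j + d k + d l) :=
  (((h.step j).step k).step l).mono (by simp only [par]; omega)

/-- the tokens of a later node enter the state -/
theorem ext_add (h : Inv (par Lo N) s) {p c : Nd} (hp : p.T = s.Z) (hc : p.Ext Lo c) :
    ∃ nw, (s.addZ nw).Z = c.T ∧ Inv (par Lo N) (s.addZ nw) ∧ (s.addZ nw).g = s.g - p.cost c := by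
  obtain ⟨nw, a⟩ := Multiset.le_iff_exists_add.1 hc.2
  refine ⟨nw, ?_, h.addZ nw, ?_⟩
  · rw [a, hp]
    exact add_comm _ _
  · rw [St.g_addZ, Nd.cost, a, Multiset.card_add]
    push_cast
    ring

/-- price of an undecided site next to the wall -/
theorem price (h : Inv (par Lo N) s) {x : Site} (hx : s.U x) {k : ZMod 6}
    (hw : Wall s.De (x + d k)) : need s.De x + s.c x ≤ 4 ∧ (¬ K0 s.De x → need s.De x + s.c x ≤ 3) ∧
      (¬ K1 s.De x → need s.De x ≤ 0) := by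
  have a0 := H7.need_le_four hw
  have a2 := h.u2 x hx
  refine ⟨?_, fun a => ?_, need_le_of_not_k1⟩
  · by_cases b0 : K0 s.De x
    · have := h.u0 x hx b0
      omega
    · have := need_le_of_not_k0 b0
      omega
  · by_cases b1 : K1 s.De x
    · have := h.u1 x hx b1
      have := need_le_of_not_k0 a
      omega
    · have := need_le_of_not_k1 b1
      omega

theorem AT.U (h : AT Lo N s t b i) {u : Site} : t.U u ↔ u ≠ b + d (i + 1) ∧ s.U u := by
  simp only [St.U, h.De, h.R, H7.wall_insert]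
  tauto

theorem AT.wall (h : AT Lo N s t b i) {u : Site} :
    Wall t.De u ↔ u = b + d (i + 1) ∨ Wall s.De u := by rw [h.De, H7.wall_insert]

theorem AT.node (h : AT Lo N s t b i) (u : Site) : node t u = node s u := by
  simp only [H88.node, h.Z, h.nd]

theorem AT.z (h : AT Lo N s t b i) (u : Site) : t.z u = s.z u := by simp only [St.z, h.Z]

theorem AT.cb (h : AT Lo N s t b i) : t.c b = s.c b := by
  refine h.c b (H7.add_d_ne _ _).symm (H7.add_d_ne _ _).symm fun e => ?_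
  have : ∀ i : ZMod 6, d (i + 1) + d i ≠ 0 := by decide
  exact this i (by rwa [add_assoc, left_eq_add] at e)

theorem AT.fl (h : AT Lo N s t b i) : fl t b = fl s b + (t.g - s.g) := by
  simp only [H88.fl, h.z, h.cb]
  ring

/-- after a turn at most three positions are open -/
theorem AT.e3 (h : AT Lo N s t b i) : ¬ t.U (b + d (i + 1 + 4)) := by
  rw [H50.ix14]
  exact h.inv.back_dec (mem_insert_of_mem h.O)

theorem fl_ge (h : Inv (par Lo N) s) (b : Site) : s.g ≤ fl s b := by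
  have := h.cz b
  simp only [fl]
  omega

theorem Nd.F4.mono {c : Nd} {y : Site} {g g' : ℤ} (h : c.F4 y g) (hg : g ≤ g') : c.F4 y g' := by
  refine ⟨h.1.trans hg, ?_⟩
  rcases h.2 with a | a | a
  · exact Or.inl (by omega)
  · exact Or.inr (Or.inl ⟨by omega, a.2⟩)
  · exact Or.inr (Or.inr ⟨by omega, a.2⟩)

theorem Nd.G4.mono {c : Nd} {y : Site} {tip : Prop} {g g' : ℤ} (h : c.G4 y i tip g)
    (hg : g ≤ g') : c.G4 y i tip g' :=
  h.imp (fun a => a.mono hg) fun a => ⟨a.1.trans hg, a.2⟩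

theorem Nd.G3.mono {c : Nd} {y u : Site} {k : ℕ} {g g' : ℤ} (h : c.G3 y u k g) (hg : g ≤ g') :
    c.G3 y u k g' := by
  rcases h with a | a | a
  · exact Or.inl (by omega)
  · exact Or.inr (Or.inl ⟨by omega, a.2⟩)
  · exact Or.inr (Or.inr ⟨by omega, a.2⟩)

end Pool.Agent.MP_6bef34_co.H88
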